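import Pool.Agent.CMG.Stmts
import Mathlib.Topology.ClopenBox

/-!
# CMG, row BRO, with proof (helper9)
-/

set_option autoImplicit false

open Set Topology

namespace Pool.Agent.CMG.H9

open Pool.Agent.LSG Pool.Agent.CMG

theorem bro : BroStmt := by
  intro X _ _ _ _ _ hiso
  classical
  have hsc : SecondCountableTopology X := by
    letI := TopologicalSpace.metrizableSpaceMetric X
    infer_instance
  have : Countable (TopologicalSpace.Clopens X) :=
    TopologicalSpace.Clopens.countable_iff_secondCountable.mpr hsc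
  have : TotallySeparatedSpace X := loc_compact_t2_tot_disc_iff_tot_sep.mp inferInstance
  obtain ⟨C, hC⟩ := exists_surjective_nat (TopologicalSpace.Clopens X)
  have hsplit : ∀ (n : ℕ) (A : Set X), ∃ D : Set X, IsClopen A → A.Nonempty →
      IsClopen D ∧ D ⊆ A ∧ D.Nonempty ∧ (A \ D).Nonempty ∧
      (A ∩ (C n : Set X) = ∅ ∨ A ⊆ (C n : Set X) ∨ D = A ∩ (C n : Set X)) := by
    intro n A
    by_cases hA : IsClopen A ∧ A.Nonempty
    · obtain ⟨hA1, hA2⟩ := hA
      have harb : ∃ D : Set X, IsClopen D ∧ D ⊆ A ∧ D.Nonempty ∧ (A \ D).Nonempty := by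
        obtain ⟨x, hx⟩ := hA2
        have h1 : ∃ y ∈ A, x ≠ y := by
          by_contra hno
          push Not at hno
          apply hiso x
          have h2 : A = {x} := by
            ext y
            constructor
            · intro hy
              exact (hno y hy).symm
            · intro hy
              rw [Set.mem_singleton_iff] at hy
              rw [hy]
              exact hx
          rw [← h2]
          exact hA1.isOpen
        obtain ⟨y, hy, hxy⟩ := h1
        obtain ⟨U, hU, hxU, hyU⟩ := exists_isClopen_of_totally_separated hxy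
        exact ⟨A ∩ U, hA1.inter hU, Set.inter_subset_left, ⟨x, hx, hxU⟩,
          ⟨y, hy, fun h => hyU h.2⟩⟩
      by_cases h1 : A ∩ (C n : Set X) = ∅
      · obtain ⟨D, a1, a2, a3, a4⟩ := harb
        exact ⟨D, fun _ _ => ⟨a1, a2, a3, a4, Or.inl h1⟩⟩
      · by_cases h2 : A ⊆ (C n : Set X)
        · obtain ⟨D, a1, a2, a3, a4⟩ := harb
          exact ⟨D, fun _ _ => ⟨a1, a2, a3, a4, Or.inr (Or.inl h2)⟩⟩
        · refine ⟨A ∩ (C n : Set X), fun _ _ => ⟨hA1.inter (C n).isClopen,
            Set.inter_subset_left, Set.nonempty_iff_ne_empty.mpr h1, ?_, Or.inr (Or.inr rfl)⟩⟩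
          obtain ⟨y, hy, hyC⟩ := Set.not_subset.mp h2
          exact ⟨y, hy, fun h => hyC h.2⟩
    · exact ⟨∅, fun a b => absurd ⟨a, b⟩ hA⟩
  choose sp hsp using hsplit
  let A : ℕ → X → Set X := fun n x =>
    Nat.rec Set.univ (fun n B => if x ∈ sp n B then sp n B else B \ sp n B) n
  have hA0 : ∀ x, A 0 x = Set.univ := fun _ => rfl
  have hA1 : ∀ n x, A (n + 1) x =
      if x ∈ sp n (A n x) then sp n (A n x) else A n x \ sp n (A n x) := fun _ _ => rfl
  have f1 : ∀ n x, IsClopen (A n x) ∧ x ∈ A n x := by
    intro n x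
    induction n with
    | zero => exact ⟨by rw [hA0]; exact isClopen_univ, by rw [hA0]; trivial⟩
    | succ n ih =>
      have h := hsp n (A n x) ih.1 ⟨x, ih.2⟩
      rw [hA1]
      by_cases hx : x ∈ sp n (A n x)
      · rw [if_pos hx]
        exact ⟨h.1, hx⟩
      · rw [if_neg hx]
        exact ⟨ih.1.diff h.1, ih.2, hx⟩
  have fs : ∀ n x, A (n + 1) x ⊆ A n x := by
    intro n x
    have h := hsp n (A n x) (f1 n x).1 ⟨x, (f1 n x).2⟩
    rw [hA1]
    by_cases hx : x ∈ sp n (A n x)
    · rw [if_pos hx]
      exact h.2.1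
    · rw [if_neg hx]
      exact Set.sdiff_subset
  -- the side of a point of the next cell
  have side : ∀ n x y, y ∈ A (n + 1) x → (y ∈ sp n (A n x) ↔ x ∈ sp n (A n x)) := by
    intro n x y hy
    rw [hA1] at hy
    by_cases hx : x ∈ sp n (A n x)
    · rw [if_pos hx] at hy
      exact ⟨fun _ => hx, fun _ => hy⟩
    · rw [if_neg hx] at hy
      exact ⟨fun h => absurd h hy.2, fun h => absurd h hx⟩
  have f2 : ∀ n x y, y ∈ A n x → A n y = A n x := by
    intro n x y
    induction n with
    | zero => intro _; rfl
    | succ n ih =>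
      intro hy
      have e := ih (fs n x hy)
      have hs := side n x y hy
      rw [hA1, hA1, e]
      by_cases hx : x ∈ sp n (A n x)
      · rw [if_pos hx, if_pos (hs.mpr hx)]
      · rw [if_neg hx, if_neg (fun h => hx (hs.mp h))]
  let G : X → ℕ → Bool := fun x n => decide (x ∈ sp n (A n x))
  have hGc : Continuous G := by
    refine continuous_pi fun n => ?_
    apply IsLocallyConstant.continuous
    rw [IsLocallyConstant.iff_eventually_eq]
    intro x
    filter_upwards [(f1 (n + 1) x).1.isOpen.mem_nhds (f1 (n + 1) x).2] with y hy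
    have e := f2 n x y (fs n x hy)
    change decide (y ∈ sp n (A n y)) = decide (x ∈ sp n (A n x))
    rw [e]
    exact decide_eq_decide.mpr (side n x y hy)
  have hGi : Function.Injective G := by
    intro x y h
    have hAA : ∀ n, A n x = A n y := by
      intro n
      induction n with
      | zero => rfl
      | succ n ih =>
        have h1 : decide (x ∈ sp n (A n x)) = decide (y ∈ sp n (A n y)) := congrFun h n
        rw [decide_eq_decide, ih] at h1
        rw [hA1, hA1, ih]
        by_cases hx : x ∈ sp n (A n y)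
        · rw [if_pos hx, if_pos (h1.mp hx)]
        · rw [if_neg hx, if_neg (fun h => hx (h1.mpr h))]
    by_contra hne
    obtain ⟨U, hU, hxU, hyU⟩ := exists_isClopen_of_totally_separated hne
    obtain ⟨n, hn⟩ := hC ⟨U, hU⟩
    have hCU : (C n : Set X) = U := by rw [hn]; rfl
    have hyA : y ∈ A n x := (Set.ext_iff.mp (hAA n) y).mpr (f1 n y).2
    obtain ⟨-, -, -, -, h3⟩ := hsp n (A n x) (f1 n x).1 ⟨x, (f1 n x).2⟩
    rw [hCU] at h3
    rcases h3 with h3 | h3 | h3
    · have h4 : x ∈ A n x ∩ U := ⟨(f1 n x).2, hxU⟩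
      rw [h3] at h4
      exact h4
    · exact hyU (h3 hyA)
    · have hxD : x ∈ sp n (A n x) := by rw [h3]; exact ⟨(f1 n x).2, hxU⟩
      have hy1 : y ∈ A (n + 1) x := (Set.ext_iff.mp (hAA (n + 1)) y).mpr (f1 (n + 1) y).2
      have hyD := (side n x y hy1).mpr hxD
      rw [h3] at hyD
      exact hyU hyD.2
  have hGs : Function.Surjective G := by
    intro β
    let c : ℕ → Set X := fun n =>
      Nat.rec Set.univ (fun n B => if β n = true then sp n B else B \ sp n B) n
    have hc0 : c 0 = Set.univ := rfl
    have hc1 : ∀ n, c (n + 1) = if β n = true then sp n (c n) else c n \ sp n (c n) :=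
      fun _ => rfl
    have g1 : ∀ n, IsClopen (c n) ∧ (c n).Nonempty := by
      intro n
      induction n with
      | zero => exact ⟨by rw [hc0]; exact isClopen_univ, by rw [hc0]; exact Set.univ_nonempty⟩
      | succ n ih =>
        have h := hsp n (c n) ih.1 ih.2
        rw [hc1]
        by_cases hb : β n = true
        · rw [if_pos hb]
          exact ⟨h.1, h.2.2.1⟩
        · rw [if_neg hb]
          exact ⟨ih.1.diff h.1, h.2.2.2.1⟩
    have gs : ∀ n, c (n + 1) ⊆ c n := by
      intro n
      have h := hsp n (c n) (g1 n).1 (g1 n).2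
      rw [hc1]
      by_cases hb : β n = true
      · rw [if_pos hb]
        exact h.2.1
      · rw [if_neg hb]
        exact Set.sdiff_subset
    obtain ⟨x, hx⟩ := IsCompact.nonempty_iInter_of_sequence_nonempty_isCompact_isClosed c gs
      (fun n => (g1 n).2) (g1 0).1.isClosed.isCompact (fun n => (g1 n).1.isClosed)
    rw [Set.mem_iInter] at hx
    have hmem : ∀ n, c n = A n x → (x ∈ sp n (A n x) ↔ β n = true) := by
      intro n e
      have h1 := hx (n + 1)
      rw [hc1, e] at h1
      by_cases hb : β n = true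
      · rw [if_pos hb] at h1
        exact ⟨fun _ => hb, fun _ => h1⟩
      · rw [if_neg hb] at h1
        exact ⟨fun h => absurd h h1.2, fun h => absurd h hb⟩
    have hAc : ∀ n, c n = A n x := by
      intro n
      induction n with
      | zero => rfl
      | succ n ih =>
        have h1 := hmem n ih
        rw [hc1, hA1, ih]
        by_cases hb : β n = true
        · rw [if_pos hb, if_pos (h1.mpr hb)]
        · rw [if_neg hb, if_neg (fun h => hb (h1.mp h))]
    refine ⟨x, funext fun n => ?_⟩
    have h1 := hmem n (hAc n)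
    change decide (x ∈ sp n (A n x)) = β n
    by_cases hb : β n = true
    · rw [hb]
      exact decide_eq_true (h1.mpr hb)
    · rw [Bool.not_eq_true] at hb
      rw [hb]
      exact decide_eq_false (fun h => by
        rw [h1.mp h] at hb
        exact absurd hb (by decide))
  exact ⟨Continuous.homeoOfEquivCompactToT2 (f := Equiv.ofBijective G ⟨hGi, hGs⟩) hGc⟩

end Pool.Agent.CMG.H9
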